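import Pool.Agent.P.MP_9344a7_nt.Ac.All
import Pool.Agent.P.MP_9344a7_nt.Tor.All

namespace Pool.Agent.Results.MP_9344a7_nt.AllCurves

open Pool.Agent.P.MP_9344a7_nt

theorem result : ∀ g : ℕ, 2 ≤ g → ∃ N p0 : ℕ, ∀ (F E E' : Type) [Field F] [Fintype F] [Field E]
    [Algebra (AlgebraicClosure F) E] [Field E'] [Algebra (AlgebraicClosure F) E']
    (C : Curve F E) (D : Curve F E'), p0 < ringChar F →
    Genus (AlgebraicClosure F) E g → Genus (AlgebraicClosure F) E' g →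
    C.CyclicJ → (∀ l, l.Prime → l ∣ C.h → N < l) → (∀ m, 0 < m → C.pts m = D.pts m) →
    C.SameH D → C.Conj D := fun g hg => by
  rcases hg.eq_or_lt with rfl | hg
  · obtain ⟨p0, h⟩ := Tor.all_FIN
    refine ⟨3, p0, fun F E E' _ _ _ _ _ _ C D hp h1 h2 ⟨g, h3⟩ h4 h5 h6 =>
      h F E E' C D hp ⟨h1, h2, ⟨⟨g, ((h3 g).2 ⟨1, (one_smul _ _).symm⟩).1⟩, fun x =>
        ((and_iff_right x.2).symm.trans (h3 x.1)).trans (exists_congr fun _ =>
          ⟨fun e => Subtype.ext e.symm, fun e => (congrArg Subtype.val e).symm⟩)⟩, ?_, h5, h6⟩⟩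
    refine Nat.Coprime.mul_right (m := 2) (n := 3) ?_ ?_
    · exact (Nat.prime_two.coprime_iff_not_dvd.2 fun e => by
        simpa using h4 2 Nat.prime_two e).symm
    · exact (Nat.prime_three.coprime_iff_not_dvd.2 fun e => by
        simpa using h4 3 Nat.prime_three e).symm
  · exact Ac.a_ALL g hg

end Pool.Agent.Results.MP_9344a7_nt.AllCurves
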