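import Pool.Agent.P.MP_9344a7_nt.Tor.All
import Pool.Agent.P.MP_9344a7_nt.Stmt

namespace Pool.Agent.Results.MP_9344a7_nt.GenusTwo

open Pool.Agent.P.MP_9344a7_nt

theorem result : ∃ p0 : ℕ, ∀ (F E E' : Type) [Field F] [Fintype F] [Field E]
    [Algebra (AlgebraicClosure F) E] [Field E'] [Algebra (AlgebraicClosure F) E']
    (C : Curve F E) (D : Curve F E'), p0 < ringChar F →
    Genus (AlgebraicClosure F) E 2 → Genus (AlgebraicClosure F) E' 2 →
    C.CyclicJ → C.h.Coprime 6 → (∀ m, 0 < m → C.pts m = D.pts m) → C.SameH D → C.Conj D :=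
  Tor.all_FIN.imp fun _ h F E E' _ _ _ _ _ _ C D hp h1 h2 ⟨g, h3⟩ h4 h5 h6 =>
    h F E E' C D hp ⟨h1, h2, ⟨⟨g, ((h3 g).2 ⟨1, (one_smul _ _).symm⟩).1⟩, fun x =>
      ((and_iff_right x.2).symm.trans (h3 x.1)).trans (exists_congr fun _ =>
        ⟨fun e => Subtype.ext e.symm, fun e => (congrArg Subtype.val e).symm⟩)⟩, h4, h5, h6⟩

end Pool.Agent.Results.MP_9344a7_nt.GenusTwo
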