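import Pool.Agent.P.MP_9344a7_nt.Od.All

namespace Pool.Agent.Results.MP_9344a7_nt.LargeOrder

open Pool.Agent.P.MP_9344a7_nt

theorem result : ∀ (g : ℕ) (ε : ℝ), 3 ≤ g → 0 < ε → ∃ p0 : ℕ, ∀ (F E E' : Type) [Field F]
    [Fintype F] [Field E] [Algebra (AlgebraicClosure F) E] [Field E']
    [Algebra (AlgebraicClosure F) E'] (C : Curve F E) (D : Curve F E'), p0 < ringChar F →
    Genus (AlgebraicClosure F) E g → Genus (AlgebraicClosure F) E' g → C.CyclicJ →
    (Fintype.card F : ℝ) ^ (g - 1 + ε) ≤ orderOf (ringChar F : ZMod C.h) →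
    (∀ m, 0 < m → C.pts m = D.pts m) → C.SameH D → C.Conj D :=
  Od.a_LO

end Pool.Agent.Results.MP_9344a7_nt.LargeOrder
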