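import Pool.Agent.P.MP_9344a7_nt.Cy.All

namespace Pool.Agent.Results.MP_9344a7_nt.NonHyperelliptic

open Pool.Agent.P.MP_9344a7_nt

theorem result : ∀ g : ℕ, 4 ≤ g → ∃ p0 : ℕ, ∀ (F E E' : Type) [Field F] [Fintype F] [Field E]
    [Algebra (AlgebraicClosure F) E] [Field E'] [Algebra (AlgebraicClosure F) E']
    (C : Curve F E) (D : Curve F E'), p0 < ringChar F →
    Genus (AlgebraicClosure F) E g → Genus (AlgebraicClosure F) E' g →
    ¬ Hy.Hyperelliptic (AlgebraicClosure F) E → C.CyclicJ →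
    (∀ m, 0 < m → C.pts m = D.pts m) → C.SameH D → C.Conj D := Cy.a_ALL

end Pool.Agent.Results.MP_9344a7_nt.NonHyperelliptic
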